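import Pool.Agent.H192R2.GP.Defs
import Pool.Agent.H333R2.Col.LA
import Pool.Agent.H175R2.Width

/-! # Rank-width argument: large sets are split => decomposition tree with few types -/

namespace Pool.Agent.H192R2.GP

open Classical Pool.Agent.H333R2.Col Pool.Agent.H175R2

noncomputable def rwM {V : Type} (G : SimpleGraph V) : Matrix V V (ZMod 2) :=
  Matrix.of fun u v => if G.Adj u v then 1 else 0

theorem rwM_symm {V : Type} (G : SimpleGraph V) : (rwM G).transpose = rwM G := by
  ext u v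
  simp [rwM, SimpleGraph.adj_comm]

theorem rwM_eq {V : Type} (G : SimpleGraph V) {u u' v : V} :
    rwM G u v = rwM G u' v ↔ (G.Adj u v ↔ G.Adj u' v) := by
  by_cases h : G.Adj u v <;> by_cases h' : G.Adj u' v <;> simp [rwM, h, h']

/-- a cut with `s` labels has rank at most `s` -/
theorem rw_rank {V : Type} [Fintype V] [Nonempty V] (G : SimpleGraph V) {s : ℕ} {A : Set V}
    (h : Cut G s A) (Z : Finset V) (hZ : ∀ v, v ∈ Z ↔ v ∈ A) : rk (rwM G) Z Zᶜ ≤ s := by
  obtain ⟨τ, hτ⟩ := h
  refine rk_le_of_rows (fun i => if h : ∃ v ∈ Z, τ v = i then h.choose else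
    Classical.arbitrary V) ?_
  intro v hv
  refine ⟨Pi.single (τ v) 1, ?_⟩
  intro w hw
  have hex : ∃ v' ∈ Z, τ v' = τ v := ⟨v, hv, rfl⟩
  rw [Finset.sum_eq_single (τ v)]
  · simp only [Pi.single_eq_same, one_mul, dif_pos hex]
    rw [rwM_eq]
    have h1 := hex.choose_spec
    apply hτ v ((hZ v).1 hv) _ ((hZ _).1 h1.1) h1.2.symm
    intro hwA
    exact (Finset.mem_compl.1 hw) ((hZ w).2 hwA)
  · intro i _ hi
    rw [Pi.single_eq_of_ne hi, zero_mul]
  · intro h; exact absurd (Finset.mem_univ _) h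

theorem rw_nt {V : Type} [Fintype V] [Nonempty V] (G : SimpleGraph V) {t : ℕ} {B : Finset V}
    (h : rk (rwM G) B Bᶜ ≤ t) : nt G Finset.univ B ≤ 2 ^ t := by
  obtain ⟨R, hR⟩ := exists_rows h
  have hcard : (Finset.univ : Finset (Fin t → ZMod 2)).card = 2 ^ t := by
    rw [Finset.card_univ, Fintype.card_fun, ZMod.card, Fintype.card_fin]
  rw [← hcard]
  refine nt_le_of_label _ (fun v => if hv : v ∈ B then (hR v hv).choose else 0)
    (fun x _ _ => Finset.mem_univ _) ?_
  intro x hx y hy _ _ hxy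
  simp only [dif_pos hx, dif_pos hy] at hxy
  have h1 := (hR x hx).choose_spec
  have h2 := (hR y hy).choose_spec
  ext z
  rw [mem_on, mem_on]
  constructor
  · rintro ⟨⟨h3, h4⟩, h5⟩
    refine ⟨⟨h3, h4⟩, ?_⟩
    have e : rwM G x z = rwM G y z := by
      rw [h1 z (Finset.mem_compl.2 h4), h2 z (Finset.mem_compl.2 h4), hxy]
    exact ((rwM_eq G).1 e).1 h5
  · rintro ⟨⟨h3, h4⟩, h5⟩
    refine ⟨⟨h3, h4⟩, ?_⟩
    have e : rwM G x z = rwM G y z := by
      rw [h1 z (Finset.mem_compl.2 h4), h2 z (Finset.mem_compl.2 h4), hxy]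
    exact ((rwM_eq G).1 e).2 h5

theorem dt_of_split (s N : ℕ) : ∃ K : ℕ, ∀ (V : Type) [Fintype V] [Nonempty V] (G : SimpleGraph V),
    (∀ X : Finset V, N ≤ X.card → ∃ A : Set V, Cut G s A ∧ ∃ X1 X2 : Finset V, X1 ⊆ X ∧ X2 ⊆ X ∧
      (∀ v ∈ X1, v ∈ A) ∧ (∀ v ∈ X2, v ∉ A) ∧ 2 * s + 1 ≤ X1.card ∧ 2 * s + 1 ≤ X2.card) →
    Pool.Agent.H175R2.DT G K Finset.univ Finset.univ := by
  refine ⟨2 ^ (max N 1), fun V _ _ G hG => ?_⟩
  obtain ⟨t, ht⟩ : ∃ t, t = max N 1 := ⟨_, rfl⟩
  rw [← ht]
  have htN : N ≤ t := by rw [ht]; exact le_max_left _ _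
  have ht1 : 1 ≤ t := by rw [ht]; exact le_max_right _ _
  have hM := rwM_symm G
  have key : ∀ m : ℕ, ∀ B : Finset V, B.card ≤ m → B.Nonempty → rk (rwM G) B Bᶜ ≤ t →
      DT G (2 ^ t) Finset.univ B := by
    intro m
    induction m with
    | zero =>
      intro B hB hne _
      exact absurd hB (by have := hne.card_pos; omega)
    | succ m ih =>
      intro B hB hne hr
      by_cases h1 : B.card = 1
      · obtain ⟨x, rfl⟩ := Finset.card_eq_one.1 h1
        exact DT.leaf x
      have hc := hne.card_pos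
      -- find a good splitting set
      have hsp : ∃ Z : Finset V, (B ∩ Z).Nonempty ∧ (B \ Z).Nonempty ∧
          rk (rwM G) (B ∩ Z) (B ∩ Z)ᶜ ≤ t ∧ rk (rwM G) (B \ Z) (B \ Z)ᶜ ≤ t := by
        by_cases hlt : rk (rwM G) B Bᶜ < t
        · obtain ⟨v, hv⟩ := hne
          have := la_single hM ht1 hlt v
          refine ⟨{v}, ⟨v, by simp [hv]⟩, ?_, this.1, this.2⟩
          obtain ⟨w, hw, hwv⟩ := Finset.exists_mem_ne (by omega : 1 < B.card) v
          exact ⟨w, by simp [hw, hwv]⟩
        · have hrt : rk (rwM G) B Bᶜ = t := by omega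
          obtain ⟨X, hXB, hXc, hXr⟩ := la_basis hrt
          obtain ⟨A, hA, X1, X2, hX1, hX2, hA1, hA2, hc1, hc2⟩ := hG X (by omega)
          have hZ := rw_rank G hA (Finset.univ.filter (fun v => v ∈ A)) (by intro v; simp)
          have i1 : X1 ⊆ X ∩ Finset.univ.filter (fun v => v ∈ A) := by
            intro v hv
            simp [hX1 hv, hA1 v hv]
          have i2 : X2 ⊆ X \ Finset.univ.filter (fun v => v ∈ A) := by
            intro v hv
            simp [hX2 hv, hA2 v hv]
          have k1 := Finset.card_le_card i1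
          have k2 := Finset.card_le_card i2
          have := la_split hM hrt hXB (by rw [hXr, hXc]) hZ (by omega) (by omega)
          refine ⟨Finset.univ.filter (fun v => v ∈ A), ?_, ?_, this.1, this.2⟩
          · have : X1.Nonempty := Finset.card_pos.1 (by omega)
            exact (this.mono i1).mono (Finset.inter_subset_inter_right hXB)
          · have : X2.Nonempty := Finset.card_pos.1 (by omega)
            exact (this.mono i2).mono (Finset.sdiff_subset_sdiff hXB (Finset.Subset.refl _))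
      obtain ⟨Z, hn1, hn2, hr1, hr2⟩ := hsp
      have hcard := Finset.card_inter_add_card_sdiff B Z
      have c1 := hn1.card_pos
      have c2 := hn2.card_pos
      have d1 := ih (B ∩ Z) (by omega) hn1 hr1
      have d2 := ih (B \ Z) (by omega) hn2 hr2
      have hu : (B ∩ Z) ∪ (B \ Z) = B := by
        ext x
        simp only [Finset.mem_union, Finset.mem_inter, Finset.mem_sdiff]
        tauto
      have hd : Disjoint (B ∩ Z) (B \ Z) := by
        rw [Finset.disjoint_left]
        intro x hx hx'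
        rw [Finset.mem_inter] at hx
        rw [Finset.mem_sdiff] at hx'
        exact hx'.2 hx.2
      have hnode := DT.node (G := G) (K := 2 ^ t) (R := Finset.univ) hd d1 d2 (by
        rw [hu]; exact rw_nt G hr)
      rw [hu] at hnode
      exact hnode
  refine key _ Finset.univ le_rfl Finset.univ_nonempty ?_
  have h0 : rk (rwM G) (Finset.univ : Finset V) Finset.univᶜ ≤ 0 := by
    rw [Finset.compl_univ, rk_symm hM]
    simpa using rk_le_card (M := rwM G) ∅ (Finset.univ : Finset V)
  omega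

end Pool.Agent.H192R2.GP
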